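import Pool.Agent.LKU.Stmts
import Pool.Agent.Helper92_LCK.REV

/-!
# LKU, row REV: reversal
-/

set_option autoImplicit false

namespace Pool.Agent.LKU.H51

open Pool.Agent.LCK

theorem rev : Pool.Agent.LKU.RevStmt := by
  intro n l h hc
  exact h (((Pool.Agent.LCK.H92.rev n).1 l).2 hc)

end Pool.Agent.LKU.H51
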